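import Mathlib
import Pool.Agent.Helper66.SC.Spec

/-!
# SC-2: the sum of the weighted determinants
-/

set_option autoImplicit false

namespace Pool.Agent.Helper75.SC

open Finset Pool.Agent.Helper66.SC

/-- the value of a bit -/
def bb (b : Bool) : ℝ := if b then 1 else 0

/-- the mean of a coordinate -/
noncomputable def xx {d : ℕ} (l : Fin (d + 1) → ℝ) (i : Fin d) : ℝ :=
  Real.exp (l i.succ) / (1 + Real.exp (l i.succ))

/-- a factor of the centred row -/
noncomputable def ph {d : ℕ} (l : Fin (d + 1) → ℝ) (i : Fin d) (j : Fin (d + 1)) (b : Bool) : ℝ :=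
  if i.succ = j then bb b - xx l i else 1

/-- the centred row -/
noncomputable def ar {d : ℕ} (l : Fin (d + 1) → ℝ) (v : Vt d) (j : Fin (d + 1)) : ℝ :=
  ∏ i, ph l i j (v i)

lemma ar_zero {d : ℕ} (l : Fin (d + 1) → ℝ) (v : Vt d) : ar l v 0 = 1 := by
  unfold ar
  apply Finset.prod_eq_one
  intro i _
  unfold ph
  rw [if_neg (Fin.succ_ne_zero i)]

lemma ar_succ {d : ℕ} (l : Fin (d + 1) → ℝ) (v : Vt d) (k : Fin d) :
    ar l v k.succ = bb (v k) - xx l k := by
  unfold ar
  rw [Finset.prod_eq_single k]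
  · unfold ph; rw [if_pos rfl]
  · intro i _ hi
    unfold ph
    rw [if_neg]
    intro h
    exact hi (Fin.succ_injective _ h)
  · intro h; exact absurd (Finset.mem_univ _) h

/-- the unitriangular matrix -/
noncomputable def um {d : ℕ} (l : Fin (d + 1) → ℝ) : Matrix (Fin (d + 1)) (Fin (d + 1)) ℝ :=
  Matrix.of fun i j => if i = j then 1 else if i = 0 then (Fin.cons 0 (fun k => - xx l k) : Fin (d+1) → ℝ) j else 0

lemma um_det {d : ℕ} (l : Fin (d + 1) → ℝ) : (um l).det = 1 := by
  rw [Matrix.det_of_isUpperTriangular]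
  · apply Finset.prod_eq_one
    intro i _
    simp [um]
  · intro i j hij
    simp only [id] at hij
    have h1 : i ≠ j := ne_of_gt hij
    have h2 : i ≠ 0 := by
      intro h
      rw [h] at hij
      exact absurd hij (by simp)
    simp [um, h1, h2]

lemma mat_mul_um {d : ℕ} (l : Fin (d + 1) → ℝ) (s : Fin (d + 1) → Vt d) :
    mat s * um l = Matrix.of fun i j => ar l (s i) j := by
  ext i j
  rw [Matrix.mul_apply]
  refine Fin.cases ?_ (fun k => ?_) j
  · rw [Fin.sum_univ_succ]
    have h0 : ∀ m : Fin d, um l m.succ 0 = 0 := by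
      intro m
      simp [um, Fin.succ_ne_zero]
    simp only [h0, mul_zero, Finset.sum_const_zero, add_zero]
    simp only [Matrix.of_apply]
    rw [ar_zero]
    simp [mat, um, row]
  · rw [Fin.sum_univ_succ]
    have h0 : um l 0 k.succ = - xx l k := by
      have : (0 : Fin (d+1)) ≠ k.succ := (Fin.succ_ne_zero k).symm
      simp [um, this]
    have h1 : ∀ m : Fin d, um l m.succ k.succ = if m = k then 1 else 0 := by
      intro m
      by_cases hmk : m = k
      · simp [um, hmk]
      · simp [um, hmk, Fin.succ_ne_zero]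
    rw [h0]
    simp only [h1, mul_ite, mul_one, mul_zero, Finset.sum_ite_eq', Finset.mem_univ, if_true]
    simp only [Matrix.of_apply]
    rw [ar_succ]
    simp [mat, row, pt, bb]
    ring

lemma det_mat {d : ℕ} (l : Fin (d + 1) → ℝ) (s : Fin (d + 1) → Vt d) :
    (mat s).det = (Matrix.of fun i j => ar l (s i) j).det := by
  rw [← mat_mul_um l s, Matrix.det_mul, um_det, mul_one]

lemma sum_prod {d : ℕ} (F : Fin d → Bool → ℝ) :
    ∑ v : Vt d, ∏ i, F i (v i) = ∏ i, (F i true + F i false) := by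
  have h := Finset.prod_univ_sum (fun _ : Fin d => (Finset.univ : Finset Bool)) F
  rw [Fintype.piFinset_univ] at h
  rw [← h]
  simp

lemma exp_ev {d : ℕ} (l : Fin (d + 1) → ℝ) (v : Vt d) :
    Real.exp (ev l v) = Real.exp (l 0) * ∏ i, Real.exp (bb (v i) * l i.succ) := by
  unfold ev
  rw [Fin.sum_univ_succ, Real.exp_add, Real.exp_sum]
  simp [row, pt, bb]

lemma sum_exp_prod {d : ℕ} (l : Fin (d + 1) → ℝ) (F : Fin d → Bool → ℝ) :
    ∑ v : Vt d, Real.exp (ev l v) * ∏ i, F i (v i) =
      Real.exp (l 0) * ∏ i, (Real.exp (l i.succ) * F i true + F i false) := by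
  have h : ∀ v : Vt d, Real.exp (ev l v) * ∏ i, F i (v i) =
      Real.exp (l 0) * ∏ i, (fun i b => Real.exp (bb b * l i.succ) * F i b) i (v i) := by
    intro v
    rw [exp_ev, mul_assoc, ← Finset.prod_mul_distrib]
  rw [Finset.sum_congr rfl (fun v _ => h v), ← Finset.mul_sum,
    sum_prod (fun i b => Real.exp (bb b * l i.succ) * F i b)]
  simp [bb]

lemma Z_eq {d : ℕ} (l : Fin (d + 1) → ℝ) :
    Z l = Real.exp (l 0) * ∏ i : Fin d, (Real.exp (l i.succ) + 1) := by
  have h := sum_exp_prod l (fun _ _ => 1)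
  simp only [Finset.prod_const_one, mul_one] at h
  exact h

lemma sum_exp_prod' {d : ℕ} (l : Fin (d + 1) → ℝ) (F : Fin d → Bool → ℝ) :
    ∑ v : Vt d, Real.exp (ev l v) * ∏ i, F i (v i) =
      Z l * ∏ i, (xx l i * F i true + (1 - xx l i) * F i false) := by
  rw [sum_exp_prod, Z_eq, mul_assoc, ← Finset.prod_mul_distrib]
  congr 1
  apply Finset.prod_congr rfl
  intro i _
  have : (1 + Real.exp (l i.succ)) ≠ 0 := by positivity
  unfold xx
  field_simp
  ring

/-- the Gram matrix is diagonal -/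
lemma gram {d : ℕ} (l : Fin (d + 1) → ℝ) (j k : Fin (d + 1)) :
    ∑ v : Vt d, Real.exp (ev l v) * (ar l v j * ar l v k) =
      if j = k then Z l * ∏ i : Fin d, (if i.succ = j then xx l i * (1 - xx l i) else 1) else 0 := by
  have h1 : ∀ v : Vt d, Real.exp (ev l v) * (ar l v j * ar l v k) =
      Real.exp (ev l v) * ∏ i, (fun i b => ph l i j b * ph l i k b) i (v i) := by
    intro v
    unfold ar
    rw [← Finset.prod_mul_distrib]
  rw [Finset.sum_congr rfl (fun v _ => h1 v),
    sum_exp_prod' l (fun i b => ph l i j b * ph l i k b)]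
  by_cases hjk : j = k
  · rw [if_pos hjk]
    congr 1
    apply Finset.prod_congr rfl
    intro i _
    subst hjk
    unfold ph
    by_cases hi : i.succ = j
    · simp only [hi, if_true, bb]
      simp
      ring
    · simp only [hi, if_false]
      ring
  · rw [if_neg hjk]
    apply mul_eq_zero_of_right
    have key : ∀ (m : Fin d) (j k : Fin (d+1)), m.succ = j → j ≠ k →
        xx l m * (ph l m j true * ph l m k true) +
          (1 - xx l m) * (ph l m j false * ph l m k false) = 0 := by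
      intro m j k hm hjk
      unfold ph
      have h2 : m.succ ≠ k := by rw [hm]; exact hjk
      simp only [hm, hjk, if_true, if_false, bb]
      simp
      ring
    rcases Fin.eq_zero_or_eq_succ j with hj | ⟨m, hm⟩
    · rcases Fin.eq_zero_or_eq_succ k with hk | ⟨m, hm⟩
      · exact absurd (hj.trans hk.symm) hjk
      · refine Finset.prod_eq_zero (Finset.mem_univ m) ?_
        have := key m k j hm.symm (Ne.symm hjk)
        rw [mul_comm (ph l m j true), mul_comm (ph l m j false)]
        exact this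
    · refine Finset.prod_eq_zero (Finset.mem_univ m) ?_
      exact key m j k hm.symm hjk

/-- the Andreief identity for an orthogonal system -/
lemma andreief {n : ℕ} {V : Type} [Fintype V] [DecidableEq V] (w : V → ℝ) (a : V → Fin n → ℝ)
    (D : Fin n → ℝ)
    (h : ∀ j k, ∑ v : V, w v * (a v j * a v k) = if j = k then D j else 0) :
    ∑ s : Fin n → V, (Matrix.of fun i j => a (s i) j).det ^ 2 * ∏ i, w (s i) =
      (n.factorial : ℝ) * ∏ j, D j := by
  have hdet : ∀ s : Fin n → V, (Matrix.of fun i j => a (s i) j).det =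
      ∑ σ : Equiv.Perm (Fin n), ((Equiv.Perm.sign σ : ℤ) : ℝ) * ∏ i, a (s i) (σ i) := by
    intro s
    rw [← Matrix.det_transpose, Matrix.det_apply']
    rfl
  have h1 : ∀ s : Fin n → V, (Matrix.of fun i j => a (s i) j).det ^ 2 * ∏ i, w (s i) =
      ∑ σ : Equiv.Perm (Fin n), ∑ τ : Equiv.Perm (Fin n),
        ((Equiv.Perm.sign σ : ℤ) : ℝ) * ((Equiv.Perm.sign τ : ℤ) : ℝ) *
          ∏ i, (w (s i) * (a (s i) (σ i) * a (s i) (τ i))) := by
    intro s
    rw [sq, hdet s, Finset.sum_mul_sum, Finset.sum_mul]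
    apply Finset.sum_congr rfl
    intro σ _
    rw [Finset.sum_mul]
    apply Finset.sum_congr rfl
    intro τ _
    rw [Finset.prod_mul_distrib, Finset.prod_mul_distrib]
    ring
  simp only [h1]
  rw [Finset.sum_comm]
  have h2 : ∀ σ : Equiv.Perm (Fin n), ∑ s : Fin n → V, ∑ τ : Equiv.Perm (Fin n),
        ((Equiv.Perm.sign σ : ℤ) : ℝ) * ((Equiv.Perm.sign τ : ℤ) : ℝ) *
          ∏ i, (w (s i) * (a (s i) (σ i) * a (s i) (τ i))) = ∏ j, D j := by
    intro σ
    rw [Finset.sum_comm]
    rw [Finset.sum_eq_single σ]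
    · rw [← Finset.mul_sum]
      have h3 := Finset.prod_univ_sum (fun _ : Fin n => (Finset.univ : Finset V))
        (fun i v => w v * (a v (σ i) * a v (σ i)))
      rw [Fintype.piFinset_univ] at h3
      rw [← h3]
      have h4 : ((Equiv.Perm.sign σ : ℤ) : ℝ) * ((Equiv.Perm.sign σ : ℤ) : ℝ) = 1 := by
        rw [← Int.cast_mul, ← Units.val_mul, Int.units_mul_self]
        simp
      rw [h4, one_mul]
      have h5 : ∀ i, ∑ v : V, w v * (a v (σ i) * a v (σ i)) = D (σ i) := by
        intro i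
        rw [h, if_pos rfl]
      rw [Finset.prod_congr rfl (fun i _ => h5 i)]
      exact Equiv.prod_comp σ D
    · intro τ _ hτ
      rw [← Finset.mul_sum]
      have h3 := Finset.prod_univ_sum (fun _ : Fin n => (Finset.univ : Finset V))
        (fun i v => w v * (a v (σ i) * a v (τ i)))
      rw [Fintype.piFinset_univ] at h3
      rw [← h3]
      have h6 : ∃ i, σ i ≠ τ i := by
        by_contra hcon
        push Not at hcon
        exact hτ (Equiv.ext fun i => (hcon i).symm)
      obtain ⟨i, hi⟩ := h6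
      rw [Finset.prod_eq_zero (Finset.mem_univ i), mul_zero]
      rw [h, if_neg hi]
    · intro h; exact absurd (Finset.mem_univ _) h
  rw [Finset.sum_congr rfl (fun σ _ => h2 σ)]
  rw [Finset.sum_const, Finset.card_univ, Fintype.card_perm, Fintype.card_fin, nsmul_eq_mul]

lemma sg_sq (b : ℝ) : sg b ^ 2 =
    Real.exp b / (1 + Real.exp b) * (1 - Real.exp b / (1 + Real.exp b)) := by
  unfold sg
  have h1 : Real.exp (b/2) ^ 2 = Real.exp b := by
    rw [← Real.exp_nat_mul]; congr 1; push_cast; ring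
  have h2 : (1 + Real.exp b) ≠ 0 := by positivity
  rw [div_pow, h1]
  field_simp
  ring

theorem sumDet {d : ℕ} (l : Fin (d + 1) → ℝ) :
    ∑ s : Fin (d + 1) → Vt d, (mat s).det ^ 2 * ∏ i, Real.exp (ev l (s i)) =
      ((d + 1).factorial : ℝ) * (Z l ^ (d + 1) * ∏ i : Fin d, sg (l i.succ) ^ 2) := by
  have h := andreief (fun v : Vt d => Real.exp (ev l v)) (ar l)
    (fun j => Z l * ∏ i : Fin d, (if i.succ = j then xx l i * (1 - xx l i) else 1)) (gram l)
  have h1 : ∀ s : Fin (d + 1) → Vt d, (mat s).det ^ 2 * ∏ i, Real.exp (ev l (s i)) =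
      (Matrix.of fun i j => ar l (s i) j).det ^ 2 * ∏ i, Real.exp (ev l (s i)) := by
    intro s
    rw [det_mat l s]
  rw [Finset.sum_congr rfl (fun s _ => h1 s), h]
  congr 1
  rw [Finset.prod_mul_distrib, Finset.prod_const, Finset.card_univ, Fintype.card_fin]
  congr 1
  rw [Finset.prod_comm]
  apply Finset.prod_congr rfl
  intro i _
  rw [Finset.prod_ite_eq, if_pos (Finset.mem_univ _), sg_sq]
  rfl

lemma Z_pos {d : ℕ} (l : Fin (d + 1) → ℝ) : 0 < Z l := by
  rw [Z_eq]; positivity

lemma sg_nonneg (b : ℝ) : 0 ≤ sg b := by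
  unfold sg; positivity

theorem stAlg : StAlg := by
  intro d l
  have hw : ∀ s : Fin (d + 1) → Vt d, 0 ≤ ∏ i, Real.exp (ev l (s i)) := by
    intro s; positivity
  have hZ : ∑ s : Fin (d + 1) → Vt d, ∏ i, Real.exp (ev l (s i)) = Z l ^ (d + 1) := by
    unfold Z
    rw [Fintype.sum_pow]
  have hcs := Finset.sum_mul_sq_le_sq_mul_sq (Finset.univ : Finset (Fin (d + 1) → Vt d))
    (fun s => |(mat s).det| * Real.sqrt (∏ i, Real.exp (ev l (s i))))
    (fun s => Real.sqrt (∏ i, Real.exp (ev l (s i))))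
  have e1 : ∀ s : Fin (d + 1) → Vt d,
      |(mat s).det| * Real.sqrt (∏ i, Real.exp (ev l (s i))) *
        Real.sqrt (∏ i, Real.exp (ev l (s i))) = |(mat s).det| * ∏ i, Real.exp (ev l (s i)) := by
    intro s
    rw [mul_assoc, Real.mul_self_sqrt (hw s)]
  have e2 : ∀ s : Fin (d + 1) → Vt d,
      (|(mat s).det| * Real.sqrt (∏ i, Real.exp (ev l (s i)))) ^ 2 =
        (mat s).det ^ 2 * ∏ i, Real.exp (ev l (s i)) := by
    intro s
    rw [mul_pow, Real.sq_sqrt (hw s), sq_abs]
  have e3 : ∀ s : Fin (d + 1) → Vt d,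
      Real.sqrt (∏ i, Real.exp (ev l (s i))) ^ 2 = ∏ i, Real.exp (ev l (s i)) := by
    intro s
    rw [Real.sq_sqrt (hw s)]
  simp only [e1, e2, e3] at hcs
  rw [hZ, sumDet] at hcs
  have hR : 0 ≤ Real.sqrt ((d + 1).factorial) * Z l ^ (d + 1) * ∏ i : Fin d, sg (l i.succ) := by
    have h1 := (Z_pos l).le
    have h2 : 0 ≤ ∏ i : Fin d, sg (l i.succ) := Finset.prod_nonneg fun i _ => sg_nonneg _
    positivity
  refine le_of_sq_le_sq ?_ hR
  refine hcs.trans (le_of_eq ?_)
  rw [mul_pow, mul_pow, Real.sq_sqrt (by positivity), Finset.prod_pow]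
  ring

end Pool.Agent.Helper75.SC
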