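import Pool.Agent.Helper99.SC.GeoStmts

/-!
# Sources and targets of the layout; the pages cover the relation (modules SG2 and SG8)
-/

set_option autoImplicit false

namespace Pool.Agent.Helper99.SC.BipCov

open Pool.Agent.Helper99.SC

/-- slot types of sources -/
def SrcT (r l : ℕ) : Prop :=
  (r = 0 ∧ (l = 0 ∨ l = 1 ∨ l = 5 ∨ l = 6 ∨ l = 9)) ∨
  (r = 1 ∧ (l = 0 ∨ l = 1 ∨ l = 2)) ∨
  (r = 2 ∧ (l = 0 ∨ l = 1 ∨ l = 2 ∨ l = 6 ∨ l = 7)) ∨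
  (r = 3 ∧ (l = 0 ∨ l = 4 ∨ l = 5))

/-- slot types of targets -/
def TgtT (r l : ℕ) : Prop :=
  (r = 0 ∧ (l = 2 ∨ l = 3 ∨ l = 4 ∨ l = 7 ∨ l = 8 ∨ l = 10 ∨ l = 11 ∨ l = 12 ∨ l = 13)) ∨
  (r = 1 ∧ (l = 3 ∨ l = 4 ∨ l = 5)) ∨
  (r = 2 ∧ (l = 3 ∨ l = 4 ∨ l = 5)) ∨
  (r = 3 ∧ (l = 1 ∨ l = 2 ∨ l = 3))

lemma isTT_tgt (ops : List Op) (t : Pl) (h : IsTT ops t) :
    t.2.1 = 0 ∧ (t.2.2.2 = 3 ∨ t.2.2.2 = 4 ∨ t.2.2.2 = 7 ∨ t.2.2.2 = 8 ∨ t.2.2.2 = 11 ∨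
      t.2.2.2 = 12) := by
  unfold IsTT at h
  omega

lemma src_of_HH (ops : List Op) (s t : Pl) (h : HH ops s t) : SrcT s.2.1 s.2.2.2 := by
  unfold SrcT
  rcases h with h | h | h | h | h
  · obtain ⟨-, h⟩ := h
    rcases h with ⟨-, -, -, h⟩ | ⟨-, -, -, h⟩ | ⟨-, h⟩ <;> omega
  · obtain ⟨-, -, -, -, h⟩ := h
    omega
  · obtain ⟨-, h0, -, -, h⟩ := h
    rcases h with ⟨-, h, -⟩ | ⟨-, h⟩ <;> omega
  · obtain ⟨h, -, -⟩ := h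
    subst h
    simp
  · rcases h with ⟨h, -⟩ | ⟨-, h2, h⟩
    · subst h
      simp
    · rcases h with ⟨-, -, h⟩ | ⟨h0, h⟩
      · omega
      · omega

lemma tgt_of_HH (ops : List Op) (s t : Pl) (h : HH ops s t) : TgtT t.2.1 t.2.2.2 := by
  unfold TgtT
  rcases h with h | h | h | h | h
  · obtain ⟨-, h⟩ := h
    rcases h with ⟨h1, h2, -⟩ | ⟨h1, h2, -⟩ | ⟨h, -⟩
    · omega
    · omega
    · have := isTT_tgt ops t h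
      omega
  · obtain ⟨-, h2, -, -, h⟩ := h
    omega
  · obtain ⟨-, -, h0, -, h⟩ := h
    rcases h with ⟨-, -, h⟩ | ⟨-, h⟩ <;> omega
  · obtain ⟨-, -, h⟩ := h
    have := isTT_tgt ops t h
    omega
  · rcases h with ⟨-, h⟩ | ⟨-, h2, h⟩
    · subst h
      simp
    · rcases h with ⟨-, -, h⟩ | ⟨h0, h⟩
      · omega
      · omega

/-- MODULE SG2. -/
theorem sg_bip : M_bip := by
  intro K ops _ a b c _ _ _ hab hbc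
  have h1 := tgt_of_HH ops a b hab
  have h2 := src_of_HH ops b c hbc
  unfold TgtT at h1
  unfold SrcT at h2
  omega

/-- two bits are a bit and its negation -/
lemma bit_cases (x : Bool) : (true = x ∨ false = x) ∧ (true = !x ∨ false = !x) := by
  cases x <;> simp

lemma PR_cov (ops : List Op) (X : ℕ → ℕ → Bool) (s t : Pl) (h : HR ops s t) :
    PR ops X true s t ∨ PR ops X false s t := by
  have key : ∃ b, PR ops X b s t := by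
    have h' := h
    obtain ⟨-, h'⟩ := h'
    rcases h' with ⟨h1, -, -⟩ | ⟨h1, -, -⟩ | ⟨hT, -⟩
    · exact ⟨!X t.1 t.2.2.1, h, Or.inl ⟨Or.inl h1, rfl⟩⟩
    · exact ⟨!X t.1 t.2.2.1, h, Or.inl ⟨Or.inr h1, rfl⟩⟩
    · obtain ⟨h0, hT⟩ := hT
      by_cases h3 : (opAt ops t.1).1 = 3
      · by_cases h4 : t.2.2.2 = 4
        · by_cases hm : s.2.1 = 1 ∧ s.2.2.2 = 1 ∧ s.2.2.1 = t.2.2.1
          · exact ⟨X t.1 t.2.2.1, h, Or.inr (Or.inl ⟨h0, h3, Or.inl ⟨h4, Or.inl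
              ⟨hm.1, hm.2.1, hm.2.2, rfl⟩⟩⟩)⟩
          · exact ⟨true, h, Or.inr (Or.inl ⟨h0, h3, Or.inl ⟨h4, Or.inr ⟨hm, Or.inl rfl⟩⟩⟩)⟩
        · by_cases h11 : t.2.2.2 = 11
          · by_cases hm : s.2.1 = 3 ∧ s.2.2.2 = 4 ∧ s.2.2.1 = t.2.2.1
            · exact ⟨X (t.1 - 1) t.2.2.1, h, Or.inr (Or.inl ⟨h0, h3, Or.inr (Or.inl ⟨h11, Or.inl
                ⟨hm.1, hm.2.1, hm.2.2, rfl⟩⟩)⟩)⟩
            · exact ⟨true, h, Or.inr (Or.inl ⟨h0, h3, Or.inr (Or.inl ⟨h11, Or.inr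
                ⟨hm, Or.inl rfl⟩⟩)⟩)⟩
          · exact ⟨true, h, Or.inr (Or.inl ⟨h0, h3, Or.inr (Or.inr ⟨h4, h11, rfl⟩)⟩)⟩
      · by_cases h2 : opAt ops t.1 = (2, t.2.2.1)
        · rcases hT with ⟨h4, -⟩ | ⟨h11, -⟩ | ⟨h8, -⟩ | ⟨-, hc⟩ | ⟨-, hc⟩ | ⟨-, hc⟩
          · by_cases hm : s.2.1 = 3 ∧ s.2.2.1 = t.2.2.1
            · exact ⟨!X t.1 (t.2.2.1 - 1), h, Or.inr (Or.inr (Or.inl ⟨h0, h2, Or.inr (Or.inr
                ⟨h4, Or.inl ⟨hm.1, hm.2, rfl⟩⟩)⟩))⟩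
            · by_cases hm' : s.2.1 = 1 ∧ s.2.2.2 = 1 ∧ s.2.2.1 = t.2.2.1
              · exact ⟨X t.1 t.2.2.1, h, Or.inr (Or.inr (Or.inl ⟨h0, h2, Or.inr (Or.inr
                  ⟨h4, Or.inr (Or.inl ⟨hm'.1, hm'.2.1, hm'.2.2, rfl⟩)⟩)⟩))⟩
              · exact ⟨X t.1 t.2.2.1, h, Or.inr (Or.inr (Or.inl ⟨h0, h2, Or.inr (Or.inr
                  ⟨h4, Or.inr (Or.inr ⟨hm, hm', Or.inl rfl⟩)⟩)⟩))⟩
          · exact ⟨X (t.1 - 1) t.2.2.1, h, Or.inr (Or.inr (Or.inl ⟨h0, h2, Or.inl ⟨h11, rfl⟩⟩))⟩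
          · exact ⟨!X (t.1 - 1) t.2.2.1, h, Or.inr (Or.inr (Or.inl ⟨h0, h2, Or.inr (Or.inl
              ⟨h8, rfl⟩)⟩))⟩
          · exact absurd hc h3
          · exact absurd hc h3
          · rw [hc] at h3
            exact absurd rfl h3
        · rcases hT with ⟨h4, -⟩ | ⟨h11, -⟩ | ⟨-, hc⟩ | ⟨-, hc⟩ | ⟨-, hc⟩ | ⟨-, hc⟩
          · exact ⟨X t.1 t.2.2.1, h, Or.inr (Or.inr (Or.inr ⟨h0, h3, h2, Or.inl ⟨h4, rfl⟩⟩))⟩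
          · exact ⟨X (t.1 - 1) t.2.2.1, h, Or.inr (Or.inr (Or.inr ⟨h0, h3, h2, Or.inr
              ⟨h11, rfl⟩⟩))⟩
          · exact absurd hc h2
          · exact absurd hc h3
          · exact absurd hc h3
          · rw [hc] at h3
            exact absurd rfl h3
  obtain ⟨b, hb⟩ := key
  cases b
  · exact Or.inr hb
  · exact Or.inl hb

lemma exists_bit {p : Bool → Prop} (h : ∃ b, p b) : p true ∨ p false := by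
  obtain ⟨b, hb⟩ := h
  cases b
  · exact Or.inr hb
  · exact Or.inl hb

/-- MODULE SG8. -/
theorem sg_cov : M_cov := by
  intro K ops X s t _ _
  constructor
  · intro h
    apply exists_bit (p := fun b => Pg ops X b s t)
    rcases h with h | h | h | h | h
    · obtain ⟨b, hb⟩ : ∃ b, PR ops X b s t := by
        rcases PR_cov ops X s t h with h | h
        · exact ⟨_, h⟩
        · exact ⟨_, h⟩
      exact ⟨b, Or.inl hb⟩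
    · have h' := h
      obtain ⟨-, -, -, -, h'⟩ := h'
      rcases h' with ⟨h1, -⟩ | ⟨h1, -⟩ | ⟨h1, -⟩ | ⟨h1, -⟩
      · exact ⟨!X s.1 s.2.2.1, Or.inr (Or.inl ⟨h, Or.inl ⟨Or.inl h1, rfl⟩⟩)⟩
      · exact ⟨X s.1 s.2.2.1, Or.inr (Or.inl ⟨h, Or.inr ⟨h1, rfl⟩⟩)⟩
      · exact ⟨X s.1 s.2.2.1, Or.inr (Or.inl ⟨h, Or.inr ⟨h1, rfl⟩⟩)⟩
      · exact ⟨!X s.1 s.2.2.1, Or.inr (Or.inl ⟨h, Or.inl ⟨Or.inr h1, rfl⟩⟩)⟩
    · have h' := h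
      obtain ⟨-, -, -, -, h'⟩ := h'
      rcases h' with ⟨h1, -⟩ | ⟨h1, -⟩
      · refine ⟨X s.1 (s.2.2.1 - 1), Or.inr (Or.inr (Or.inl ⟨h, Or.inl ⟨?_, rfl⟩⟩))⟩
        rw [h1]
      · exact ⟨!X s.1 s.2.2.1, Or.inr (Or.inr (Or.inl ⟨h, Or.inr ⟨h1, rfl⟩⟩))⟩
    · exact ⟨true, Or.inr (Or.inr (Or.inr (Or.inl ⟨h, rfl⟩)))⟩
    · have h' := h
      rcases h' with ⟨h1, -⟩ | ⟨-, -, h'⟩
      · exact ⟨false, Or.inr (Or.inr (Or.inr (Or.inr ⟨h, Or.inl ⟨h1, rfl⟩⟩)))⟩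
      · rcases h' with ⟨-, -, ⟨h1, -⟩ | ⟨h1, -⟩ | ⟨h1, -⟩⟩ | ⟨h0, h'⟩
        · exact ⟨X s.1 s.2.2.1, Or.inr (Or.inr (Or.inr (Or.inr ⟨h, Or.inr (Or.inl
            ⟨Or.inl h1, rfl⟩)⟩)))⟩
        · exact ⟨!X s.1 s.2.2.1, Or.inr (Or.inr (Or.inr (Or.inr ⟨h, Or.inr (Or.inr (Or.inl
            ⟨h1, rfl⟩))⟩)))⟩
        · exact ⟨X s.1 s.2.2.1, Or.inr (Or.inr (Or.inr (Or.inr ⟨h, Or.inr (Or.inl
            ⟨Or.inr h1, rfl⟩)⟩)))⟩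
        · by_cases h3 : (opAt ops s.1).1 = 3
          · exact ⟨X s.1 s.2.2.1, Or.inr (Or.inr (Or.inr (Or.inr ⟨h, Or.inr (Or.inr (Or.inr
              (Or.inl ⟨h0, h3, rfl⟩)))⟩)))⟩
          · refine ⟨!X s.1 s.2.2.1, Or.inr (Or.inr (Or.inr (Or.inr ⟨h, Or.inr (Or.inr (Or.inr
              (Or.inr ⟨h0, ?_, rfl⟩)))⟩)))⟩
            omega
  · intro h
    rcases h with h | h
    all_goals
      rcases h with h | h | h | h | h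
      · exact Or.inl h.1
      · exact Or.inr (Or.inl h.1)
      · exact Or.inr (Or.inr (Or.inl h.1))
      · exact Or.inr (Or.inr (Or.inr (Or.inl h.1)))
      · exact Or.inr (Or.inr (Or.inr (Or.inr h.1)))

end Pool.Agent.Helper99.SC.BipCov
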